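import Pool.Agent.Helper20.QD.St4

/-!
Project QD, module FCO: the boundary map in coordinates.
-/

set_option autoImplicit false

open Filter Topology Matrix Set Metric
open scoped ComplexConjugate ComplexOrder

namespace Pool.Agent.Helper79.QD

open Pool.Agent.Helper35.PM Pool.Agent.Helper20.QD

/-- a map into a compact set is continuous if its composition with an injective continuous map is -/
private theorem fco_cont {X Y Z : Type*} [TopologicalSpace X] [TopologicalSpace Y]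
    [TopologicalSpace Z] [T2Space Z] {S : Set X} {K : Set Y} (hK : IsCompact K) {b : X → Y}
    {q : Y → Z} (hb : ∀ x ∈ S, b x ∈ K) (hq : Continuous q) (hqi : Function.Injective q)
    (h : ContinuousOn (fun x => q (b x)) S) : ContinuousOn b S := by
  haveI : CompactSpace K := isCompact_iff_compactSpace.1 hK
  have hqK : Continuous (fun y : K => q y) := hq.comp continuous_subtype_val
  have hqKi : Function.Injective (fun y : K => q y) := fun y y' hy => Subtype.ext (hqi hy)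
  have hind := (hqK.isClosedEmbedding hqKi).isInducing
  rw [continuousOn_iff_continuous_restrict] at h ⊢
  have h1 : Continuous (fun x : S => (⟨b x, hb x x.2⟩ : K)) := by
    rw [hind.continuous_iff]
    exact h
  exact continuous_subtype_val.comp h1

theorem hFCO (hSUB : StSUB) (_hLFR : StLFR) (hLQC : StLQC) (hLLA : StLLA) (hFBO : StFBO)
    (hFSU : StFSU) : StFCO := by
  intro Γ _ σ ρ hσ hρ hinf
  obtain ⟨hCC, hlim, hcmp⟩ := hFSU Γ σ hσ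
  obtain ⟨B, hBc, hBb, hBo, hBe⟩ := hFBO Γ σ ρ hCC hρ
  obtain ⟨hLc, hLl, hLm, -, -⟩ := hLLA Γ ρ hρ.discrete hinf
  obtain ⟨-, -, -, -, -, hQc, hQi, hact, -⟩ := hLQC
  have hmem : ∀ ζ ∈ SS, Qp ζ ∈ limitSet σ := fun ζ hζ => by rw [hlim]; exact ⟨ζ, hζ, rfl⟩
  have hex : ∀ ζ : ℂ, ∃ w : ℂ, ζ ∈ SS → w ∈ Lam ρ ∧ Qp w = B (Qp ζ) := by
    intro ζ
    by_cases hζ : ζ ∈ SS
    · have h1 : B (Qp ζ) ∈ limitSet ρ := hBb.mapsTo (hmem ζ hζ)
      rw [hLl] at h1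
      obtain ⟨w, hw, hw'⟩ := h1
      exact ⟨w, fun _ => ⟨hw, hw'⟩⟩
    · exact ⟨0, fun h => absurd h hζ⟩
  choose b hb using hex
  have hmobS : ∀ γ, ∀ ζ ∈ SS, mob (σ γ) ζ ∈ SS := fun γ ζ hζ =>
    (hSUB.1 (σ γ) (hσ.su γ)).2.2.2.1.mapsTo hζ
  refine ⟨b, ?_, ⟨?_, ?_, ?_⟩, ?_, ?_⟩
  · refine fco_cont hLc (fun ζ hζ => (hb ζ hζ).1) hQc hQi ?_
    have h1 : ContinuousOn (fun ζ => B (Qp ζ)) SS := hBc.comp hQc.continuousOn hmem
    exact h1.congr fun ζ hζ => (hb ζ hζ).2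
  · intro ζ hζ
    exact (hb ζ hζ).1
  · intro ζ hζ ζ' hζ' h
    have h1 : B (Qp ζ) = B (Qp ζ') := by rw [← (hb ζ hζ).2, ← (hb ζ' hζ').2, h]
    exact hQi (hBb.injOn (hmem ζ hζ) (hmem ζ' hζ') h1)
  · intro l hl
    have h1 : Qp l ∈ limitSet ρ := hl
    obtain ⟨Q, hQ, hQl⟩ := hBb.surjOn h1
    rw [hlim] at hQ
    obtain ⟨ζ, hζ, rfl⟩ := hQ
    refine ⟨ζ, hζ, hQi ?_⟩
    rw [(hb ζ hζ).2, hQl]
  · intro γ ζ hζ
    apply hQi
    have hζD : ζ ∈ DD := sphere_subset_closedBall hζ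
    have h1 := (hSUB.1 (σ γ) (hσ.su γ)).2.1 ζ hζD
    have h2 := hBe γ (Qp ζ) (hmem ζ hζ)
    rw [(hact (σ γ) ζ).1 h1, ← (hb ζ hζ).2, ← (hb _ (hmobS γ ζ hζ)).2,
      (hact (ρ γ) (b ζ)).1 (hLm γ (b ζ) (hb ζ hζ).1).1] at h2
    exact h2
  · intro ζ hζ ε hε
    obtain ⟨δ1, hδ1, h1⟩ := hBo (Qp ζ) (hmem ζ hζ) ε hε
    obtain ⟨δ, hδ, h2⟩ := hcmp ζ hζ δ1 hδ1
    refine ⟨δ, hδ, fun γ hγ => ?_⟩
    rw [(hb ζ hζ).2]
    exact h1 γ (h2 γ hγ)

end Pool.Agent.Helper79.QD
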