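import Pool.Agent.Helper20.QD.St2

/-!
Project QD, module RIJ: injective holomorphic functions.
-/

set_option autoImplicit false

open Filter Topology Matrix Set Metric
open scoped ComplexConjugate

namespace Pool.Agent.Helper79.QD

open Pool.Agent.Helper35.PM Pool.Agent.Helper20.QD

/-- a function `(z - z0) ^ k * g z`, `k ≥ 2`, `g z0 ≠ 0`, is not injective near `z0` -/
private theorem rij_pow {U : Set ℂ} {h g : ℂ → ℂ} {z0 : ℂ} {k : ℕ} (hk : 2 ≤ k)
    (hU : U ∈ 𝓝 z0) (hg : AnalyticAt ℂ g z0) (hg0 : g z0 ≠ 0)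
    (he : ∀ᶠ z in 𝓝 z0, h z = (z - z0) ^ k * g z) : ¬ InjOn h U := by
  intro hi
  obtain ⟨c, hc⟩ : ∃ c : ℂ, c ^ k = g z0 := IsAlgClosed.exists_pow_nat_eq _ (by omega)
  have hk0 : (k : ℂ) ≠ 0 := by
    have : k ≠ 0 := by omega
    exact_mod_cast this
  have hc0 : c ≠ 0 := by
    rintro rfl
    rw [zero_pow (by omega)] at hc
    exact hg0 hc.symm
  obtain ⟨ψ, hψ⟩ : ∃ ψ : ℂ → ℂ, ψ = fun z => (z - z0) *
      (c * Complex.exp (Complex.log (g z / g z0) / k)) := ⟨_, rfl⟩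
  have hq : AnalyticAt ℂ (fun z => g z / g z0) z0 := hg.div analyticAt_const hg0
  have hq1 : g z0 / g z0 = 1 := div_self hg0
  have hlog : AnalyticAt ℂ (fun z => Complex.log (g z / g z0)) z0 := by
    apply hq.clog
    rw [hq1]
    exact Complex.one_mem_slitPlane
  have hroot : AnalyticAt ℂ (fun z => c * Complex.exp (Complex.log (g z / g z0) / k)) z0 :=
    analyticAt_const.mul ((hlog.div analyticAt_const hk0).cexp)
  have hψa : AnalyticAt ℂ ψ z0 := by
    rw [hψ]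
    exact (analyticAt_id.sub analyticAt_const).mul hroot
  have hψd : HasDerivAt ψ c z0 := by
    have h1 : HasDerivAt (fun z : ℂ => z - z0) 1 z0 := (hasDerivAt_id z0).sub_const z0
    have h2 := h1.mul hroot.differentiableAt.hasDerivAt
    have h3 := h2.congr_deriv (g' := c) (by simp [hq1])
    rw [hψ]
    exact h3
  have hψs : HasStrictDerivAt ψ c z0 := by
    have h1 := hψa.hasStrictDerivAt
    rwa [hψd.deriv] at h1
  have hψ0 : ψ z0 = 0 := by rw [hψ]; simp
  have hmap : Filter.map ψ (𝓝 z0) = 𝓝 0 := by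
    rw [hψs.map_nhds_eq hc0, hψ0]
  have hpow : ∀ᶠ z in 𝓝 z0, h z = ψ z ^ k := by
    have hne : ∀ᶠ z in 𝓝 z0, g z ≠ 0 := hg.continuousAt.eventually_ne hg0
    filter_upwards [he, hne] with z hz hz0
    rw [hz, hψ]
    simp only
    rw [mul_pow, mul_pow, hc, ← Complex.exp_nat_mul, mul_div_cancel₀ _ hk0,
      Complex.exp_log (div_ne_zero hz0 hg0), mul_div_cancel₀ _ hg0]
  obtain ⟨ω, hω⟩ : ∃ ω : ℂ, ω = Complex.exp (2 * Real.pi * Complex.I / k) := ⟨_, rfl⟩
  have hprim : IsPrimitiveRoot ω k := by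
    rw [hω]
    exact Complex.isPrimitiveRoot_exp k (by omega)
  have hω1 : ω ≠ 1 := hprim.ne_one (by omega)
  have hωk : ω ^ k = 1 := hprim.pow_eq_one
  obtain ⟨N, hN⟩ : ∃ N : Set ℂ, N = U ∩ {z | h z = ψ z ^ k} := ⟨_, rfl⟩
  have hNn : N ∈ 𝓝 z0 := by
    rw [hN]
    exact inter_mem hU hpow
  have hIm : ψ '' N ∈ 𝓝 (0 : ℂ) := by
    rw [← hmap]
    exact image_mem_map hNn
  have hIm2 : ∀ᶠ w in 𝓝 (0 : ℂ), ω * w ∈ ψ '' N := by
    have hcont : Tendsto (fun w : ℂ => ω * w) (𝓝 0) (𝓝 0) := by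
      have : Continuous fun w : ℂ => ω * w := by fun_prop
      simpa using this.tendsto 0
    exact hcont hIm
  have hboth : ∀ᶠ w in 𝓝[≠] (0 : ℂ), w ∈ ψ '' N ∧ ω * w ∈ ψ '' N :=
    (Filter.Eventually.and hIm hIm2).filter_mono nhdsWithin_le_nhds
  obtain ⟨w, ⟨⟨z1, hz1, hw1⟩, ⟨z2, hz2, hw2⟩⟩, hw0⟩ := (hboth.and self_mem_nhdsWithin).exists
  rw [hN] at hz1 hz2
  have h1 : h z1 = h z2 := by
    rw [hz1.2, hz2.2, hw1, hw2, mul_pow, hωk, one_mul]
  have h2 := hi hz1.1 hz2.1 h1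
  rw [h2, hw2] at hw1
  have h3 : (ω - 1) * w = 0 := by linear_combination hw1
  rcases mul_eq_zero.1 h3 with h3 | h3
  · exact hω1 (sub_eq_zero.1 h3)
  · exact hw0 h3

private theorem rij_deriv {U : Set ℂ} {f : ℂ → ℂ} {z0 : ℂ} (hU : IsOpen U)
    (hf : DifferentiableOn ℂ f U) (hi : InjOn f U) (hz : z0 ∈ U) : deriv f z0 ≠ 0 := by
  intro hd
  have hUn : U ∈ 𝓝 z0 := hU.mem_nhds hz
  have hfa : AnalyticAt ℂ f z0 := hf.analyticAt hUn
  have hha : AnalyticAt ℂ (fun z => f z - f z0) z0 := hfa.sub analyticAt_const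
  have hhi : InjOn (fun z => f z - f z0) U := fun x hx y hy h => hi hx hy (sub_left_injective h)
  have hfin : analyticOrderAt (fun z => f z - f z0) z0 ≠ ⊤ := by
    intro htop
    rw [analyticOrderAt_eq_top] at htop
    have h1 : ∀ᶠ z in 𝓝[≠] z0, f z - f z0 = 0 ∧ z ∈ U :=
      (htop.and hUn).filter_mono nhdsWithin_le_nhds
    obtain ⟨z, ⟨h2, h3⟩, h4⟩ := (h1.and self_mem_nhdsWithin).exists
    exact h4 (hi h3 hz (sub_eq_zero.1 h2))
  obtain ⟨k, hk⟩ := ENat.ne_top_iff_exists.1 hfin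
  obtain ⟨g, hg, hg0, hge⟩ := (hha.analyticOrderAt_eq_natCast).1 hk.symm
  rcases Nat.lt_or_ge k 2 with hk2 | hk2
  · interval_cases k
    · have h1 := hge.self_of_nhds
      simp at h1
      exact hg0 h1.symm
    · have h1 : HasDerivAt (fun z => (z - z0) ^ 1 • g z) (g z0) z0 := by
        have h2 : HasDerivAt (fun z : ℂ => z - z0) 1 z0 := (hasDerivAt_id z0).sub_const z0
        have h3 := (h2.mul hg.differentiableAt.hasDerivAt).congr_deriv (g' := g z0) (by simp)
        have h4 : (fun z => (z - z0) ^ 1 • g z) = (fun z => z - z0) * g := by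
          funext z
          simp
        rw [h4]
        exact h3
      have h2 : HasDerivAt (fun z => f z - f z0) (g z0) z0 := h1.congr_of_eventuallyEq hge
      have h3 : HasDerivAt (fun z => f z - f z0) (deriv f z0) z0 :=
        hfa.differentiableAt.hasDerivAt.sub_const _
      have h4 := h2.unique h3
      rw [hd] at h4
      exact hg0 h4
  · exact rij_pow hk2 hUn hg hg0 hge hhi

theorem hRIJ : StRIJ := by
  intro U f hU hf hi
  have hd : ∀ z ∈ U, deriv f z ≠ 0 := fun z hz => rij_deriv hU hf hi hz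
  have hmap : ∀ z ∈ U, Filter.map f (𝓝 z) = 𝓝 (f z) := fun z hz =>
    ((hf.analyticAt (hU.mem_nhds hz)).hasStrictDerivAt).map_nhds_eq (hd z hz)
  have hopen : IsOpen (f '' U) := by
    rw [isOpen_iff_mem_nhds]
    rintro _ ⟨z, hz, rfl⟩
    rw [← hmap z hz]
    exact image_mem_map (hU.mem_nhds hz)
  have hg : ∀ z ∈ U, Function.invFunOn f U (f z) = z := fun z hz => hi.leftInvOn_invFunOn hz
  refine ⟨hd, hopen, Function.invFunOn f U, ?_, hg⟩
  rintro _ ⟨z, hz, rfl⟩
  have hc : ContinuousAt (Function.invFunOn f U) (f z) := by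
    rw [ContinuousAt, hg z hz, ← hmap z hz, Filter.tendsto_map'_iff]
    refine Tendsto.congr' ?_ tendsto_id
    filter_upwards [hU.mem_nhds hz] with x hx
    exact (hg x hx).symm
  have h1 : HasDerivAt f (deriv f z) (Function.invFunOn f U (f z)) := by
    rw [hg z hz]
    exact ((hf z hz).differentiableAt (hU.mem_nhds hz)).hasDerivAt
  have h2 := HasDerivAt.of_local_left_inverse hc h1 (hd z hz) (by
    filter_upwards [hopen.mem_nhds ⟨z, hz, rfl⟩] with y hy
    obtain ⟨x, hx, rfl⟩ := hy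
    rw [hg x hx])
  exact h2.differentiableAt.differentiableWithinAt

end Pool.Agent.Helper79.QD
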