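import Pool.Agent.Helper58.QD.StF
import Pool.Agent.Helper62.DSH.Fin

set_option autoImplicit false

open MeasureTheory Set Filter Topology
open Helper62.LH Helper62.DSH Helper58.QD
open scoped ContDiff ENNReal

noncomputable section

namespace Pool.Agent.Helper79.QD

theorem int_sub {n : ℕ} {H : E n → ℝ} (hH : Integrable H) (x : E n) {ε : ℝ} (hε : 0 < ε) :
    Integrable (fun y => H (x - ε • y)) ∧
      ∫ y, H (x - ε • y) = (ε ^ n)⁻¹ * ∫ z, H z := by
  have h1 : Integrable (fun z => H (x - z)) := hH.comp_sub_left x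
  have h2 := h1.comp_smul hε.ne'
  refine ⟨h2, ?_⟩
  have h3 := Measure.integral_comp_smul (volume : Measure (E n)) (fun z => H (x - z)) ε
  rw [h3, integral_sub_left_eq_self H volume x, finrank_euclideanSpace_fin, smul_eq_mul,
    abs_of_pos (by positivity)]

theorem supp_le {n : ℕ} {ρ : E n → ℝ} (hρ : Mol ρ) {y : E n} (hy : ρ y ≠ 0) : ‖y‖ ≤ 1 := by
  by_contra h
  exact hy (hρ.supp y (not_le.1 h))

theorem mol_cs {n : ℕ} {ρ : E n → ℝ} (hρ : Mol ρ) : HasCompactSupport ρ := by
  refine HasCompactSupport.intro (isCompact_closedBall (0 : E n) 1) fun y hy => ?_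
  by_contra h
  exact hy (by simpa using supp_le hρ h)

theorem int_mol {n : ℕ} {ρ : E n → ℝ} (hρ : Mol ρ) {q : E n → ℝ} (hq : Continuous q) (x : E n)
    (ε : ℝ) : Integrable (fun y => ρ y * q (x - ε • y)) := by
  refine Continuous.integrable_of_hasCompactSupport ?_ ?_
  · have := hρ.smooth.continuous
    fun_prop
  · exact (mol_cs hρ).mul_right

theorem norm_sub_le {n : ℕ} {x y : E n} {r ε : ℝ} (hx : ‖x‖ ≤ r) (hε : 0 < ε) (hε1 : ε ≤ 1)
    (hy : ‖y‖ ≤ 1) : ‖x - ε • y‖ ≤ r + 1 := by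
  refine (_root_.norm_sub_le _ _).trans ?_
  rw [norm_smul, Real.norm_eq_abs, abs_of_pos hε]
  nlinarith [norm_nonneg y]

theorem mo_le {n : ℕ} {ρ : E n → ℝ} (hρ : Mol ρ) {C : ℝ} (hC : ∀ y, ρ y ≤ C) {h : E n → ℝ}
    (h0 : ∀ x, 0 ≤ h x) {r : ℝ} (hi : IntegrableOn h (Metric.closedBall 0 (r + 1))) {x : E n}
    (hx : ‖x‖ ≤ r) {ε : ℝ} (hε : 0 < ε) (hε1 : ε ≤ 1) :
    Integrable (fun y => ρ y * h (x - ε • y)) ∧
      ∫ y, ρ y * h (x - ε • y) ≤
        C * (ε ^ n)⁻¹ * ∫ z in Metric.closedBall 0 (r + 1), h z := by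
  set B := Metric.closedBall (0 : E n) (r + 1) with hB
  set H := B.indicator h with hH
  have hHi : Integrable H := (integrable_indicator_iff Metric.isClosed_closedBall.measurableSet).2 hi
  have e : (fun y => ρ y * h (x - ε • y)) = fun y => ρ y * H (x - ε • y) := by
    funext y
    by_cases hy : ρ y = 0
    · simp [hy]
    · have : x - ε • y ∈ B := by
        rw [hB, mem_closedBall_zero_iff]
        exact norm_sub_le hx hε hε1 (supp_le hρ hy)
      rw [hH, indicator_of_mem this]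
  obtain ⟨h1, h2⟩ := int_sub hHi x hε
  have hb : ∀ y, |ρ y| ≤ C := fun y => by rw [abs_of_nonneg (hρ.nonneg y)]; exact hC y
  have h3 : Integrable (fun y => ρ y * H (x - ε • y)) := by
    refine h1.bdd_mul (c := C) hρ.smooth.continuous.aestronglyMeasurable ?_
    exact Eventually.of_forall fun y => by simpa using hb y
  rw [e]
  refine ⟨h3, ?_⟩
  have hH0 : ∀ z, 0 ≤ H z := fun z => indicator_nonneg (fun a _ => h0 a) z
  calc ∫ y, ρ y * H (x - ε • y) ≤ ∫ y, C * H (x - ε • y) := by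
        refine integral_mono h3 (h1.const_mul C) fun y => ?_
        exact mul_le_mul_of_nonneg_right (hC y) (hH0 _)
    _ = C * (ε ^ n)⁻¹ * ∫ z in B, h z := by
        rw [integral_const_mul, h2, hH, integral_indicator Metric.isClosed_closedBall.measurableSet]
        ring

theorem trans_le {n : ℕ} {h : E n → ℝ} (hc : Continuous h) (h0 : ∀ x, 0 ≤ h x) {K K1 : Set (E n)}
    (hK : IsCompact K) (hK1 : IsCompact K1) {c : E n} (hc1 : ∀ x ∈ K, x - c ∈ K1) :
    ∫ x in K, h (x - c) ≤ ∫ x in K1, h x := by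
  rw [← integral_indicator hK.measurableSet, ← integral_indicator hK1.measurableSet,
    ← integral_add_right_eq_self _ c]
  refine integral_mono_of_nonneg ?_ ?_ ?_
  · exact Eventually.of_forall fun x => indicator_nonneg (fun a _ => h0 _) _
  · exact (integrable_indicator_iff hK1.measurableSet).2 (hc.continuousOn.integrableOn_compact hK1)
  · refine Eventually.of_forall fun x => ?_
    by_cases hx : x + c ∈ K
    · have h2 : x ∈ K1 := by simpa using hc1 _ hx
      simp only [indicator_of_mem hx, indicator_of_mem h2, add_sub_cancel_right]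
      exact le_refl _
    · simp only [indicator_of_notMem hx]
      exact indicator_nonneg (fun a _ => h0 _) _

theorem swap_le {n : ℕ} {ρ : E n → ℝ} (hρ : Mol ρ) {h : E n → ℝ} (hc : Continuous h)
    (h0 : ∀ x, 0 ≤ h x) {K K1 : Set (E n)} (hK : IsCompact K) (hK1 : IsCompact K1) {ε : ℝ}
    (h1 : ∀ x ∈ K, ∀ y : E n, ‖y‖ ≤ 1 → x - ε • y ∈ K1) :
    IntegrableOn (fun x => ∫ y, ρ y * h (x - ε • y)) K ∧
    ∫ x in K, (∫ y, ρ y * h (x - ε • y)) ≤ ∫ x in K1, h x := by
  set B := Metric.closedBall (0 : E n) 1 with hB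
  have hBc : IsCompact B := isCompact_closedBall 0 1
  have hρc := hρ.smooth.continuous
  have e : ∀ x, ∫ y, ρ y * h (x - ε • y) = ∫ y in B, ρ y * h (x - ε • y) := by
    intro x
    rw [setIntegral_eq_integral_of_forall_compl_eq_zero]
    intro y hy
    have : ρ y = 0 := by
      by_contra h2
      exact hy (by simpa [hB] using supp_le hρ h2)
    rw [this, zero_mul]
  have hI : Integrable (Function.uncurry fun x y => ρ y * h (x - ε • y))
      ((volume.restrict K).prod (volume.restrict B)) := by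
    rw [Measure.prod_restrict]
    refine ContinuousOn.integrableOn_compact (hK.prod hBc) ?_
    apply Continuous.continuousOn
    simp only [Function.uncurry_def]
    fun_prop
  have e2 : (fun x => ∫ y, ρ y * h (x - ε • y)) = fun x => ∫ y in B, ρ y * h (x - ε • y) :=
    funext e
  rw [e2]
  refine ⟨hI.integral_prod_left, ?_⟩
  rw [integral_integral_swap hI]
  have hρi : Integrable ρ := hρc.integrable_of_hasCompactSupport (mol_cs hρ)
  have e3 : ∫ y in B, ρ y = 1 := by
    rw [setIntegral_eq_integral_of_forall_compl_eq_zero, hρ.int]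
    intro y hy
    by_contra h2
    exact hy (by simpa [hB] using supp_le hρ h2)
  calc ∫ y in B, (∫ x in K, ρ y * h (x - ε • y))
      ≤ ∫ y in B, ρ y * (∫ x in K1, h x) := by
        refine integral_mono_of_nonneg ?_ (hρi.integrableOn.mul_const _) ?_
        · refine Eventually.of_forall fun y => integral_nonneg fun x => ?_
          exact mul_nonneg (hρ.nonneg y) (h0 _)
        · rw [EventuallyLE, ae_restrict_iff' hBc.measurableSet]
          refine Eventually.of_forall fun y hy => ?_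
          have hy1 : ‖y‖ ≤ 1 := by simpa [hB] using hy
          rw [integral_const_mul]
          exact mul_le_mul_of_nonneg_left (trans_le hc h0 hK hK1 fun x hx => h1 x hx y hy1)
            (hρ.nonneg y)
    _ = ∫ x in K1, h x := by rw [integral_mul_const, e3, one_mul]

theorem qmp {n : ℕ} (x : E n) {ε : ℝ} (hε : 0 < ε) :
    Measure.QuasiMeasurePreserving (fun y : E n => x - ε • y) volume volume := by
  have h1 : Measure.QuasiMeasurePreserving (fun y : E n => ε • y) volume volume := by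
    refine ⟨by fun_prop, ?_⟩
    rw [Measure.map_addHaar_smul _ hε.ne']
    exact Measure.smul_absolutelyContinuous
  have h2 : Measure.QuasiMeasurePreserving (fun y : E n => x - y) volume volume :=
    quasiMeasurePreserving_sub_left volume x
  exact h2.comp h1

theorem pw {n k : ℕ} (hNna : SNna) {g : E n → Bl n} (hg : IsMet g) {ρ : E n → ℝ} (hρ : Mol ρ)
    {κ ε δ : ℝ} (hε : 0 < ε) (hεδ : ε ≤ δ) {x : E n}
    (hδ : ∀ y, ‖x - y‖ ≤ δ → ∀ α : Fk n k, nsq g k x α ≤ (1 + κ) * nsq g k y α)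
    {φ : E n → Fk n k} (hφ : Continuous φ) {q : E n → ℝ} (hq : Continuous q)
    (hqφ : ∀ y, nsq g k y (φ y) = q y) :
    nsq g k x (∫ y, ρ y • φ (x - ε • y)) ≤ (1 + κ) * ∫ y, ρ y * q (x - ε • y) := by
  obtain ⟨h1, -, -, -, h5⟩ := hNna n k g hg x
  refine (h5 ρ (fun y => φ (x - ε • y)) hρ (by fun_prop)).trans ?_
  rw [← integral_const_mul]
  apply integral_mono_of_nonneg
  · exact Eventually.of_forall fun y => mul_nonneg (hρ.nonneg y) (h1 _).1
  · exact (int_mol hρ hq x ε).const_mul _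
  · refine Eventually.of_forall fun y => ?_
    by_cases hy : ρ y = 0
    · simp [hy]
    · have h3 := supp_le hρ hy
      have h2 : ‖x - (x - ε • y)‖ ≤ δ := by
        rw [sub_sub_cancel, norm_smul, Real.norm_eq_abs, abs_of_pos hε]
        nlinarith
      have h4 := mul_le_mul_of_nonneg_left (hδ _ h2 (φ (x - ε • y))) (hρ.nonneg y)
      rw [hqφ] at h4
      calc ρ y * nsq g k x (φ (x - ε • y)) ≤ ρ y * ((1 + κ) * q (x - ε • y)) := h4
        _ = (1 + κ) * (ρ y * q (x - ε • y)) := by ring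


theorem shrink {n : ℕ} {f : E n → ℝ} (hf : ∀ K, IsCompact K → IntegrableOn f K)
    {K : Set (E n)} (hK : IsCompact K) {κ : ℝ} (hκ : 0 < κ) :
    ∃ δ : ℝ, 0 < δ ∧ δ ≤ 1 ∧ ∫ x in Metric.cthickening δ K, f x ≤ (∫ x in K, f x) + κ := by
  have ht := tendsto_setIntegral_of_antitone (μ := volume) (f := f)
    (s := fun k : ℕ => Metric.cthickening (1 / ((k : ℝ) + 1)) K)
    (fun k => Metric.isClosed_cthickening.measurableSet)
    (fun k l hkl => Metric.cthickening_mono (Nat.one_div_le_one_div hkl) K)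
    ⟨0, hf _ hK.cthickening⟩
  have e : ⋂ k : ℕ, Metric.cthickening (1 / ((k : ℝ) + 1)) K = K := by
    have h1 := Metric.closure_eq_iInter_cthickening' K (Set.range fun k : ℕ => 1 / ((k : ℝ) + 1))
      (by
        intro ε hε
        obtain ⟨k, hk⟩ := exists_nat_one_div_lt hε
        exact ⟨_, ⟨k, rfl⟩, ⟨by positivity, hk.le⟩⟩)
    rw [hK.isClosed.closure_eq, biInter_range] at h1
    exact h1.symm
  rw [e] at ht
  have h2 := ht.eventually (ge_mem_nhds (lt_add_of_pos_right _ hκ))
  obtain ⟨k, hk⟩ := h2.exists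
  exact ⟨1 / ((k : ℝ) + 1), by positivity, by
    rw [div_le_one (by positivity)]
    linarith [Nat.cast_nonneg (α := ℝ) k], hk⟩

theorem q2_int {n k : ℕ} {η : E n → Tn n k} (hη : L2t η) {K : Set (E n)} (hK : IsCompact K) :
    IntegrableOn (fun x => q2 (η x)) K := by
  have : (fun x => q2 (η x)) = fun x => (∑ I, (η x I) ^ 2) / k.factorial := by
    funext x
    unfold q2 ipt
    simp [pow_two]
  rw [this]
  exact (integrable_finsetSum _ fun I _ => (hη I).2 K hK).div_const _

theorem l2t_sub {n k : ℕ} {u η : E n → Tn n k} (hu : Continuous u) (hη : L2t η) :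
    L2t (fun x => u x - η x) := by
  intro I
  have hc : Continuous (fun x => u x I) := (continuous_apply I).comp hu
  refine ⟨hc.aestronglyMeasurable.sub (hη I).1, fun K hK => ?_⟩
  have h1 : MemLp (fun x => u x I) 2 (volume.restrict K) :=
    (memLp_two_iff_integrable_sq hc.aestronglyMeasurable).2
      ((hc.pow 2).continuousOn.integrableOn_compact hK)
  have h2 : MemLp (fun x => η x I) 2 (volume.restrict K) :=
    (memLp_two_iff_integrable_sq (hη I).1.restrict).2 ((hη I).2 K hK)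
  exact (h1.sub h2).integrable_sq

theorem q2_cont {n k : ℕ} {u : E n → Tn n k} (hu : Continuous u) :
    Continuous (fun x => q2 (u x)) := by
  unfold q2 ipt
  have : ∀ I, Continuous (fun x => u x I) := fun I => (continuous_apply I).comp hu
  fun_prop

/-- choice of the small constant -/
theorem choose {A a κ c V : ℝ} (hκ : 0 < κ) : ∃ t : ℝ, 0 < t ∧ t ≤ 1 ∧
    (1 + t) ^ 3 * ((1 + t) * (A + t) + t) + 2 * t * c ^ 2 * V ≤ A + κ ∧
    (1 + t) * ((1 + t) * ((1 + t) * a + t)) + 2 * t * c ^ 2 ≤ a + κ := by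
  have h1 : Tendsto (fun t : ℝ => (1 + t) ^ 3 * ((1 + t) * (A + t) + t) + 2 * t * c ^ 2 * V)
      (𝓝[>] 0) (𝓝 A) := by
    have : Continuous (fun t : ℝ => (1 + t) ^ 3 * ((1 + t) * (A + t) + t) + 2 * t * c ^ 2 * V) := by
      fun_prop
    have h := this.tendsto 0
    simp only [add_zero, one_pow, one_mul, mul_zero, zero_mul] at h
    exact h.mono_left nhdsWithin_le_nhds
  have h2 : Tendsto (fun t : ℝ => (1 + t) * ((1 + t) * ((1 + t) * a + t)) + 2 * t * c ^ 2)
      (𝓝[>] 0) (𝓝 a) := by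
    have : Continuous (fun t : ℝ => (1 + t) * ((1 + t) * ((1 + t) * a + t)) + 2 * t * c ^ 2) := by
      fun_prop
    have h := this.tendsto 0
    simp only [add_zero, one_mul, mul_zero, zero_mul] at h
    exact h.mono_left nhdsWithin_le_nhds
  have h3 := h1.eventually (ge_mem_nhds (lt_add_of_pos_right _ hκ))
  have h4 := h2.eventually (ge_mem_nhds (lt_add_of_pos_right _ hκ))
  have h5 : ∀ᶠ t : ℝ in 𝓝[>] 0, t ∈ Ioc (0 : ℝ) 1 :=
    Ioc_mem_nhdsGT one_pos
  obtain ⟨t, ht⟩ := (h3.and (h4.and h5)).exists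
  exact ⟨t, ht.2.2.1, ht.2.2.2, ht.1, ht.2.1⟩


theorem vol_cmp {n : ℕ} {v : E n → ℝ} (hv : Continuous v) (hv0 : ∀ x, 0 < v x) (r : ℝ) {t : ℝ}
    (ht : 0 < t) :
    ∃ δ : ℝ, 0 < δ ∧ ∀ x y : E n, ‖x‖ ≤ r → ‖x - y‖ ≤ δ → v x ≤ (1 + t) * v y := by
  rcases lt_or_ge r 0 with hr | hr
  · exact ⟨1, one_pos, fun x y hx => absurd (norm_nonneg x) (by linarith)⟩
  have hB := isCompact_closedBall (0 : E n) (r + 1)
  obtain ⟨z, hz, hzm⟩ := hB.exists_isMinOn ⟨0, by simp; linarith⟩ hv.continuousOn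
  have huc := hB.uniformContinuousOn_of_continuous hv.continuousOn
  rw [Metric.uniformContinuousOn_iff] at huc
  obtain ⟨δ, hδ, h⟩ := huc (t * v z) (mul_pos ht (hv0 z))
  refine ⟨min (δ / 2) 1, lt_min (by linarith) one_pos, fun x y hx hxy => ?_⟩
  have h1 : x ∈ Metric.closedBall (0 : E n) (r + 1) := by
    rw [mem_closedBall_zero_iff]
    linarith
  have h2 : y ∈ Metric.closedBall (0 : E n) (r + 1) := by
    rw [mem_closedBall_zero_iff]
    have h3 : ‖y‖ ≤ ‖x‖ + ‖x - y‖ := by
      have := _root_.norm_sub_le x (x - y)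
      rwa [sub_sub_cancel] at this
    have h4 := min_le_right (δ / 2) 1
    linarith
  have h3 : dist x y < δ := by
    rw [dist_eq_norm]
    have h4 := min_le_left (δ / 2) 1
    linarith
  have h4 := h x h1 y h2 h3
  rw [Real.dist_eq] at h4
  have h5 := (abs_lt.1 h4).2
  have h6 : v z ≤ v y := hzm h2
  nlinarith

theorem hMop (hSma : StSma) (hDlv : StDlv) (hCfr : StCfr) (hNrm : TNrm) (hFmk : TFmk)
    (hBrc : TBrc) (hNna : SNna) (hNnk : SNnk) (hMoa : SMoa) : SMop := by
  intro n m g Γ F G hg hΓ hF P η hη hap O a hO ha hae K K' hK hK' hKO κ hκ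
  obtain ⟨⟨ρ, hρ⟩, -⟩ := hSma n
  obtain ⟨hvs, hv0, -⟩ := hDlv n g Γ hg hΓ
  have hvc : Continuous (vol g) := hvs.continuous
  obtain ⟨hq0', -, -, hq4, -, -, -, -⟩ := hNrm n (m + 1)
  have hq0 : ∀ t : Tn n (m + 1), 0 ≤ q2 t := fun t => (hq0' t).1
  -- the form
  obtain ⟨u0, ⟨hu0, hu0a, hu0d⟩, -⟩ := hap ∅ isCompact_empty 1 one_pos
  obtain ⟨φ0, hφ0, hφ0c⟩ := hFmk n (m + 1) g Γ F G hg hF u0 hu0 hu0a
  obtain ⟨-, -, hμs, hμ0⟩ := hBrc n (m + 1) g Γ F G hg hΓ hF φ0 hφ0
  obtain ⟨μ, hμ⟩ : ∃ μ : E n → Fk n (m + 2), μ = fun x => extDeriv φ0 x := ⟨_, rfl⟩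
  rw [← hμ] at hμs hμ0
  have hcφ0 : cp F φ0 = u0 := funext hφ0c
  have hμP : ∀ x, cp F μ x = P x := by
    intro x
    rw [← hu0d x, ← hcφ0, hμ0 x]
  have hp1 : ∀ φ : E n → Fk n (m + 1), ContDiff ℝ ∞ φ → (∀ x, extDeriv φ x = μ x) →
      Prm F G P (cp F φ) := by
    intro φ hφ hd
    obtain ⟨h1, h2, -, h4⟩ := hBrc n (m + 1) g Γ F G hg hΓ hF φ hφ
    refine ⟨h1, h2, fun x => ?_⟩
    rw [h4 x, ← hμP x]
    congr 1
    funext y
    exact hd y
  have hp2 : ∀ φ : E n → Fk n (m + 1), ContDiff ℝ ∞ φ → (∀ x, dF F G (cp F φ) x = P x) →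
      ∀ x, extDeriv φ x = μ x := by
    intro φ hφ hd x
    obtain ⟨-, -, -, h4⟩ := hBrc n (m + 1) g Γ F G hg hΓ hF φ hφ
    have h5 := eq_zero_of_cp (hF.onb x) (extDeriv φ x - μ x) fun I => by
      have h6 := congrFun (h4 x) I
      have h7 := congrFun (hμP x) I
      have h8 := congrFun (hd x) I
      unfold cp at h6 h7
      simp only [ContinuousAlternatingMap.sub_apply]
      rw [← h6, h7]
      exact sub_eq_zero.2 h8
    exact sub_eq_zero.1 h5
  -- constants
  have hS : IsCompact (K ∪ K') := hK.union hK'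
  obtain ⟨r, hr⟩ := (hS.cthickening (r := 1)).isBounded.subset_closedBall 0
  have hSr : ∀ x ∈ K ∪ K', ‖x‖ ≤ r := fun x hx => by
    have := hr (Metric.self_subset_cthickening _ hx)
    simpa using this
  obtain ⟨⟨c, C, hc, hC, hcC⟩, hδ⟩ := hNnk n (m + 1) g hg (K ∪ K') hS
  obtain ⟨t, ht, ht1, hA, hB⟩ := choose (A := ∫ x in K, q2 (η x) * vol g x) (a := a) (c := C)
    (V := ∫ x in K, vol g x) hκ
  obtain ⟨δ1, hδ1, hn1⟩ := hδ t ht
  obtain ⟨δ2, hδ2, hn2⟩ := vol_cmp hvc hv0 r ht
  have hηi : ∀ K, IsCompact K → IntegrableOn (fun x => q2 (η x) * vol g x) K := fun L hL =>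
    (q2_int hη hL).mul_continuousOn hvc.continuousOn hL
  obtain ⟨δ3, hδ3, hδ31, hn3⟩ := shrink hηi hK ht
  obtain ⟨δ4, hδ4, hn4⟩ := hK'.exists_cthickening_subset_open hO hKO
  obtain ⟨ε0, hε0, hn5⟩ := hMoa n (m + 1) ρ hρ μ hμs r t ht
  obtain ⟨ε, hε, he1, he2, he3, he4, he5⟩ : ∃ ε : ℝ, 0 < ε ∧ ε ≤ δ1 ∧ ε ≤ δ2 ∧ ε ≤ δ3 ∧
      ε ≤ δ4 ∧ ε ≤ ε0 := by
    refine ⟨min (min δ1 δ2) (min (min δ3 δ4) ε0), by positivity, ?_, ?_, ?_, ?_, ?_⟩
    · exact (min_le_left _ _).trans (min_le_left _ _)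
    · exact (min_le_left _ _).trans (min_le_right _ _)
    · exact (min_le_right _ _).trans ((min_le_left _ _).trans (min_le_left _ _))
    · exact (min_le_right _ _).trans ((min_le_left _ _).trans (min_le_right _ _))
    · exact (min_le_right _ _).trans (min_le_right _ _)
  have hε1 : ε ≤ 1 := he3.trans hδ31
  have hBc : IsCompact (Metric.closedBall (0 : E n) (r + 1)) := isCompact_closedBall _ _
  obtain ⟨v0, hv00, hv1⟩ : ∃ v0 : ℝ, 0 < v0 ∧
      ∀ z ∈ Metric.closedBall (0 : E n) (r + 1), v0 ≤ vol g z := by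
    rcases (Metric.closedBall (0 : E n) (r + 1)).eq_empty_or_nonempty with h | h
    · exact ⟨1, one_pos, fun z hz => by rw [h] at hz; exact absurd hz (notMem_empty z)⟩
    · obtain ⟨z, hz, hzm⟩ := hBc.exists_isMinOn h hvc.continuousOn
      exact ⟨vol g z, hv0 z, fun y hy => hzm hy⟩
  obtain ⟨R, hR⟩ := (mol_cs hρ).exists_bound_of_continuous hρ.smooth.continuous
  have hR' : ∀ y, ρ y ≤ R := fun y => (le_abs_self _).trans (hR y)
  have hR0 : 0 ≤ R := (norm_nonneg _).trans (hR 0)
  obtain ⟨D, hD⟩ : ∃ D : ℝ, D = R * (ε ^ n)⁻¹ / v0 := ⟨_, rfl⟩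
  have hD0 : 0 ≤ D := by rw [hD]; positivity
  obtain ⟨κ2, hκ2, hk1, hk2⟩ : ∃ κ2 : ℝ, 0 < κ2 ∧ (1 + 1 / t) * κ2 ≤ t ∧
      (1 + 1 / t) * (D * κ2) ≤ t := by
    have e1 : (1 + 1 / t) * (t / ((1 + 1 / t) * (1 + D))) = t / (1 + D) := by
      field_simp
    refine ⟨t / ((1 + 1 / t) * (1 + D)), by positivity, ?_, ?_⟩
    · rw [e1]
      exact div_le_self ht.le (by linarith)
    · rw [mul_left_comm, e1, ← mul_div_assoc, div_le_iff₀ (by positivity)]
      nlinarith
  obtain ⟨u, ⟨hu, hua, hud⟩, hu2⟩ := hap _ hBc κ2 hκ2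
  obtain ⟨φ, hφ, hφc⟩ := hFmk n (m + 1) g Γ F G hg hF u hu hua
  have hcφ : cp F φ = u := funext hφc
  have hφd := hp2 φ hφ (by rw [hcφ]; exact hud)
  obtain ⟨φ', hφ', hφ'd, hφ'n⟩ := hn5 ε hε he5 φ hφ hφd
  have huc := hu.continuous
  have E1 : ∀ x ∈ K ∪ K', q2 (cp F φ' x) ≤
      (1 + t) * ((1 + t) * ∫ y, ρ y * q2 (u (x - ε • y))) + 2 * t * C ^ 2 := by
    intro x hx
    obtain ⟨ha1, ha2, -, -, -⟩ := hNna n (m + 1) g hg x
    have h1 := pw hNna hg hρ hε he1 (fun y hy α => hn1 x hx y hy α) hφ.continuous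
      (q2_cont huc) (fun y => by rw [nsq_cp hCfr hF, hcφ])
    obtain ⟨ψ, hψ⟩ : ∃ ψ : Fk n (m + 1), ψ = ∫ y, ρ y • φ (x - ε • y) := ⟨_, rfl⟩
    rw [← hψ] at h1
    have h2 := ha2 ψ (φ' x - ψ)
    rw [add_sub_cancel] at h2
    have h3 := (hcC x hx (φ' x - ψ)).2
    have h4 : nn g x (φ' x - ψ) ≤ C * t := by
      refine h3.trans (mul_le_mul_of_nonneg_left ?_ hC.le)
      rw [hψ]
      exact hφ'n x (hSr x hx)
    rw [← nsq_cp hCfr hF, ← (ha1 (φ' x)).2.1]
    rw [← (ha1 ψ).2.1] at h1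
    have h5 := (ha1 (φ' x)).2.2
    have h6 : nn g x (φ' x) ≤ nn g x ψ + C * t := h2.trans (by linarith)
    have h7 := pow_le_pow_left₀ h5 h6 2
    nlinarith [mul_nonneg ht.le (sq_nonneg (nn g x ψ - C)),
      mul_nonneg (mul_nonneg ht.le (sub_nonneg.2 ht1)) (sq_nonneg C),
      mul_le_mul_of_nonneg_left h1 (by linarith : (0 : ℝ) ≤ 1 + t)]
  have hwi : IntegrableOn (fun z => q2 (u z - η z)) (Metric.closedBall 0 (r + 1)) :=
    q2_int (l2t_sub huc hη) hBc
  have hwv := hwi.mul_continuousOn hvc.continuousOn hBc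
  have hsplit : ∀ z, q2 (u z) ≤ (1 + t) * q2 (η z) + (1 + 1 / t) * q2 (u z - η z) := by
    intro z
    have := hq4 (η z) (u z - η z) t ht
    rwa [add_sub_cancel] at this
  refine ⟨cp F φ', hp1 φ' hφ' hφ'd, ?_, ?_⟩
  · -- the integral bound
    have hK1 : IsCompact (Metric.cthickening δ3 K) := hK.cthickening
    have hK1B : Metric.cthickening δ3 K ⊆ Metric.closedBall (0 : E n) (r + 1) := by
      refine (Metric.cthickening_mono hδ31 K).trans ?_
      refine (Metric.cthickening_subset_of_subset 1 (subset_union_left : K ⊆ K ∪ K')).trans ?_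
      exact hr.trans (Metric.closedBall_subset_closedBall (by linarith))
    have hcu : Continuous fun z => q2 (u z) * vol g z := (q2_cont huc).mul hvc
    obtain ⟨hs1, hs2⟩ := swap_le hρ hcu (fun z => mul_nonneg (hq0 _) (hv0 z).le) hK hK1
      (ε := ε) (fun x hx y hy => by
        refine Metric.mem_cthickening_of_dist_le _ x _ _ hx ?_
        rw [dist_eq_norm, sub_sub_cancel_left, norm_neg, norm_smul, Real.norm_eq_abs,
          abs_of_pos hε]
        nlinarith)
    have hP : ∀ x ∈ K, q2 (cp F φ' x) * vol g x ≤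
        (1 + t) ^ 3 * (∫ y, ρ y * (q2 (u (x - ε • y)) * vol g (x - ε • y))) +
          2 * t * C ^ 2 * vol g x := by
      intro x hx
      have h1 := mul_le_mul_of_nonneg_right (E1 x (Or.inl hx)) (hv0 x).le
      have h2 : (∫ y, ρ y * q2 (u (x - ε • y))) * vol g x ≤
          (1 + t) * ∫ y, ρ y * (q2 (u (x - ε • y)) * vol g (x - ε • y)) := by
        rw [← integral_mul_const, ← integral_const_mul]
        refine integral_mono_of_nonneg ?_ ((int_mol hρ hcu x ε).const_mul _) ?_
        · exact Eventually.of_forall fun y =>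
            mul_nonneg (mul_nonneg (hρ.nonneg y) (hq0 _)) (hv0 x).le
        · refine Eventually.of_forall fun y => ?_
          by_cases hy : ρ y = 0
          · simp [hy]
          · have h3 := supp_le hρ hy
            have h4 : vol g x ≤ (1 + t) * vol g (x - ε • y) := by
              refine hn2 x _ (hSr x (Or.inl hx)) ?_
              rw [sub_sub_cancel, norm_smul, Real.norm_eq_abs, abs_of_pos hε]
              nlinarith
            have h5 := mul_le_mul_of_nonneg_left h4
              (mul_nonneg (hρ.nonneg y) (hq0 (u (x - ε • y))))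
            refine h5.trans (le_of_eq ?_)
            ring
      nlinarith [mul_le_mul_of_nonneg_left h2 (sq_nonneg (1 + t))]
    have hu'c : Continuous (fun x => q2 (cp F φ' x)) :=
      q2_cont (hp1 φ' hφ' hφ'd).1.continuous
    have h1 : ∫ x in K, q2 (cp F φ' x) * vol g x ≤
        (1 + t) ^ 3 * (∫ x in K, ∫ y, ρ y * (q2 (u (x - ε • y)) * vol g (x - ε • y))) +
          2 * t * C ^ 2 * ∫ x in K, vol g x := by
      have hvi : IntegrableOn (vol g) K := hvc.continuousOn.integrableOn_compact hK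
      rw [← integral_const_mul, ← integral_const_mul, ← integral_add (hs1.const_mul _)
        (hvi.const_mul _)]
      refine setIntegral_mono_on ((hu'c.mul hvc).continuousOn.integrableOn_compact hK)
        ((hs1.const_mul _).add (hvi.const_mul _)) hK.measurableSet fun x hx => ?_
      exact hP x hx
    have h2 : ∫ x in Metric.cthickening δ3 K, q2 (u x) * vol g x ≤
        (1 + t) * ((∫ x in K, q2 (η x) * vol g x) + t) + t := by
      have hwK := hwv.mono_set hK1B
      have h3 : ∫ x in Metric.cthickening δ3 K, q2 (u x) * vol g x ≤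
          (1 + t) * (∫ x in Metric.cthickening δ3 K, q2 (η x) * vol g x) +
            (1 + 1 / t) * ∫ x in Metric.cthickening δ3 K, q2 (u x - η x) * vol g x := by
        rw [← integral_const_mul, ← integral_const_mul,
          ← integral_add ((hηi _ hK1).const_mul _) (hwK.const_mul _)]
        refine setIntegral_mono_on (hcu.continuousOn.integrableOn_compact hK1)
          (((hηi _ hK1).const_mul _).add (hwK.const_mul _)) hK1.measurableSet fun x _ => ?_
        have := mul_le_mul_of_nonneg_right (hsplit x) (hv0 x).le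
        refine this.trans (le_of_eq ?_)
        ring
      have h4 : ∫ x in Metric.cthickening δ3 K, q2 (u x - η x) * vol g x ≤ κ2 := by
        refine le_trans (setIntegral_mono_set hwv ?_ hK1B.eventuallyLE) hu2
        exact Eventually.of_forall fun x => mul_nonneg (hq0 _) (hv0 x).le
      have h5 := mul_le_mul_of_nonneg_left h4 (by positivity : (0 : ℝ) ≤ 1 + 1 / t)
      have h6 := mul_le_mul_of_nonneg_left hn3 (by linarith : (0 : ℝ) ≤ 1 + t)
      linarith
    have h7 := mul_le_mul_of_nonneg_left (hs2.trans h2)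
      (by positivity : (0 : ℝ) ≤ (1 + t) ^ 3)
    linarith
  · -- the pointwise bound
    intro x hx
    have hxr := hSr x (Or.inr hx)
    obtain ⟨hb1, hb2⟩ := mo_le hρ hR' (fun z => hq0 (u z - η z)) hwi hxr hε hε1
    have hb3 : ∫ z in Metric.closedBall 0 (r + 1), q2 (u z - η z) ≤ κ2 / v0 := by
      rw [le_div_iff₀ hv00, ← integral_mul_const]
      refine le_trans ?_ hu2
      exact setIntegral_mono_on (hwi.mul_const _) hwv Metric.isClosed_closedBall.measurableSet
        fun z hz => mul_le_mul_of_nonneg_left (hv1 z hz) (hq0 _)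
    have hM : ∫ y, ρ y * q2 (u (x - ε • y)) ≤ (1 + t) * a + t := by
      have hae2 : ∀ᵐ y : E n, x - ε • y ∈ O → q2 (η (x - ε • y)) ≤ a := by
        rw [ae_restrict_iff' hO.measurableSet] at hae
        exact (qmp x hε).ae hae
      have hρi : Integrable ρ :=
        hρ.smooth.continuous.integrable_of_hasCompactSupport (mol_cs hρ)
      have hc1 : ∫ y, ρ y * q2 (u (x - ε • y)) ≤
          ∫ y, (((1 + t) * a) * ρ y +
            (1 + 1 / t) * (ρ y * q2 (u (x - ε • y) - η (x - ε • y)))) := by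
        refine integral_mono_of_nonneg ?_ ((hρi.const_mul _).add (hb1.const_mul _)) ?_
        · exact Eventually.of_forall fun y => mul_nonneg (hρ.nonneg y) (hq0 _)
        · filter_upwards [hae2] with y hy
          by_cases hy0 : ρ y = 0
          · simp [hy0]
          · have h3 := supp_le hρ hy0
            have h4 : x - ε • y ∈ O := by
              apply hn4
              refine Metric.mem_cthickening_of_dist_le _ x _ _ hx ?_
              rw [dist_eq_norm, sub_sub_cancel_left, norm_neg, norm_smul, Real.norm_eq_abs,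
                abs_of_pos hε]
              nlinarith
            have h5 := hy h4
            have h6 := hsplit (x - ε • y)
            have h7 := mul_le_mul_of_nonneg_left h5 (by linarith : (0 : ℝ) ≤ 1 + t)
            have h8 := mul_le_mul_of_nonneg_left (h6.trans (add_le_add_left h7 _)) (hρ.nonneg y)
            refine h8.trans (le_of_eq ?_)
            ring
      rw [integral_add (hρi.const_mul _) (hb1.const_mul _), integral_const_mul,
        integral_const_mul, hρ.int, mul_one] at hc1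
      have h9 : ∫ y, ρ y * q2 (u (x - ε • y) - η (x - ε • y)) ≤ D * κ2 := by
        refine hb2.trans ?_
        have := mul_le_mul_of_nonneg_left hb3 (by positivity : (0 : ℝ) ≤ R * (ε ^ n)⁻¹)
        refine this.trans (le_of_eq ?_)
        rw [hD]
        ring
      have h10 := mul_le_mul_of_nonneg_left h9 (by positivity : (0 : ℝ) ≤ 1 + 1 / t)
      linarith
    have h1 := E1 x (Or.inr hx)
    have h2 := mul_le_mul_of_nonneg_left hM (by linarith : (0 : ℝ) ≤ 1 + t)
    have h3 := mul_le_mul_of_nonneg_left h2 (by linarith : (0 : ℝ) ≤ 1 + t)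
    linarith

end Pool.Agent.Helper79.QD
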