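import Pool.Agent.Helper20.QD.St3

/-!
Project QD, module LCZ: cocompactness on the inside, in the coordinate.
-/

set_option autoImplicit false

open Filter Topology Matrix Set Metric
open scoped ComplexConjugate ComplexOrder

namespace Pool.Agent.Helper79.QD

open Pool.Agent.Helper35.PM Pool.Agent.Helper20.QD

theorem hLCZ (hLQC : StLQC) (_hLLS : StLLS) (hLCO : StLCO) : StLCZ := by
  intro Γ _ ρ hρ
  obtain ⟨ε, hε, h⟩ := hLCO Γ ρ hρ.cc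
  obtain ⟨-, -, hsph, hfr, -, -, -, hact, -⟩ := hLQC
  refine ⟨Real.sqrt (ε / 2), Real.sqrt_pos.2 (by positivity), ?_⟩
  intro z hz
  obtain ⟨γ, hγ⟩ := h (Qp z) (hsph z).1 hz.1
  refine ⟨γ, fun l hl => ?_⟩
  have h1 := hγ (Qp l) hl
  rw [(hact (ρ γ) z).1 (hρ.side γ z hz).1, hfr] at h1
  apply Real.sqrt_le_iff.2
  refine ⟨norm_nonneg _, ?_⟩
  have h2 : 0 ≤ ‖mob (ρ γ) z‖ ^ 2 := by positivity
  have h3 : 0 ≤ ‖l‖ ^ 2 := by positivity
  have h4 : 2 * ‖mob (ρ γ) z - l‖ ^ 2 / ((1 + ‖mob (ρ γ) z‖ ^ 2) * (1 + ‖l‖ ^ 2)) ≤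
      2 * ‖mob (ρ γ) z - l‖ ^ 2 := by
    apply div_le_self (by positivity)
    nlinarith
  linarith

end Pool.Agent.Helper79.QD
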